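import Mathlib

namespace Pool.Agent.Results.MP_d06a13_ag.VExceedsDepth

open MvPolynomial

section
variable {K : Type} [Field K]

/-- kill the variables outside `F` -/
noncomputable def pr (F : Finset (Fin 6)) : MvPolynomial (Fin 6) K →ₐ[K] MvPolynomial (Fin 6) K :=
  aeval fun i => if i ∈ F then X i else 0

/-- ideal of the variables in `F` -/
noncomputable def V (K : Type) [Field K] (F : Finset (Fin 6)) : Ideal (MvPolynomial (Fin 6) K) :=
  Ideal.span (X '' (F : Set (Fin 6)))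

theorem X_mem (F : Finset (Fin 6)) (i : Fin 6) (h : i ∈ F) : X i ∈ V K F :=
  Ideal.subset_span ⟨i, h, rfl⟩

theorem sub_pr (F : Finset (Fin 6)) (f : MvPolynomial (Fin 6) K) : f - pr F f ∈ V K Fᶜ := by
  induction f using MvPolynomial.induction_on with
  | C a => simp [pr]
  | add p q hp hq => rw [map_add, add_sub_add_comm]; exact add_mem hp hq
  | mul_X p i hp =>
    by_cases h : i ∈ F
    · have : p * X i - pr F (p * X i) = (p - pr F p) * X i := by simp [pr, h]; ring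
      rw [this]; exact Ideal.mul_mem_right _ _ hp
    · have : p * X i - pr F (p * X i) = p * X i := by simp [pr, h]
      rw [this]; exact Ideal.mul_mem_left _ _ (X_mem _ _ (by simpa using h))

theorem pr_map (F G : Finset (Fin 6)) (f : MvPolynomial (Fin 6) K) (hf : f ∈ V K G) :
    pr F f ∈ V K (G ∩ F) := by
  refine Ideal.mem_comap.mp
    (Ideal.map_le_iff_le_comap.mp (show (V K G).map (pr F) ≤ V K (G ∩ F) from ?_) hf)
  rw [V, Ideal.map_span, Ideal.span_le]
  rintro _ ⟨_, ⟨i, hi, rfl⟩, rfl⟩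
  by_cases h : i ∈ F
  · simpa [pr, h] using X_mem (K := K) (G ∩ F) i (Finset.mem_inter.mpr ⟨hi, h⟩)
  · simp [pr, h]

theorem pr_zero (F G : Finset (Fin 6)) (h : G ∩ F = ∅) (f : MvPolynomial (Fin 6) K)
    (hf : f ∈ V K G) : pr F f = 0 := by
  simpa [h, V] using pr_map F G f hf

theorem const_pr (F : Finset (Fin 6)) (f : MvPolynomial (Fin 6) K) :
    constantCoeff (pr F f) = constantCoeff f := by
  induction f using MvPolynomial.induction_on with
  | C a => simp [pr]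
  | add p q hp hq => simp [hp, hq]
  | mul_X p i hp => by_cases h : i ∈ F <;> simp [pr, h]

/-- supports of the generators -/
def gens : Finset (Finset (Fin 6)) :=
  {{0, 1, 2}, {3, 4, 5}, {0, 3}, {0, 4}, {0, 5}, {1, 3}, {1, 4}, {1, 5}, {2, 3}, {2, 4}, {2, 5}}

/-- the ideal -/
noncomputable def I (K : Type) [Field K] : Ideal (MvPolynomial (Fin 6) K) :=
  Ideal.span ((fun s : Finset (Fin 6) => ∏ i ∈ s, (X i : MvPolynomial (Fin 6) K)) '' gens)

theorem gen_mem (s : Finset (Fin 6)) (hs : s ∈ gens) : ∏ i ∈ s, X i ∈ I K :=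
  Ideal.subset_span ⟨s, hs, rfl⟩

theorem kill (φ : MvPolynomial (Fin 6) K →ₐ[K] MvPolynomial (Fin 6) K) (F : Finset (Fin 6))
    (hφ : ∀ i, i ∉ F → φ (X i) = 0) (hF : ∀ s ∈ gens, ¬ s ⊆ F) (f) (hf : f ∈ I K) : φ f = 0 := by
  refine Ideal.map_le_iff_le_comap.mp (show (I K).map φ ≤ ⊥ from ?_) hf
  rw [I, Ideal.map_span, Ideal.span_le]
  rintro _ ⟨_, ⟨s, hs, rfl⟩, rfl⟩
  obtain ⟨i, hi, h⟩ := Finset.not_subset.mp (hF s hs)
  simp only [map_prod, SetLike.mem_coe, Ideal.mem_bot]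
  exact Finset.prod_eq_zero hi (hφ i h)

theorem pr_I (F : Finset (Fin 6)) (hF : ∀ s ∈ gens, ¬ s ⊆ F) (f) (hf : f ∈ I K) : pr F f = 0 :=
  kill _ F (fun i h => by simp [pr, h]) hF f hf

theorem cross (f g) (hf : f ∈ V K {0, 1, 2}) (hg : g ∈ V K {0, 1, 2}ᶜ) : f * g ∈ I K := by
  refine (show V K {0, 1, 2} * V K {0, 1, 2}ᶜ ≤ I K from ?_) (Ideal.mul_mem_mul hf hg)
  rw [V, V, Ideal.span_mul_span, Ideal.span_le]
  rintro _ ⟨_, ⟨i, hi, rfl⟩, _, ⟨j, hj, rfl⟩, rfl⟩
  have h : ∀ i ∈ ({0, 1, 2} : Finset (Fin 6)), ∀ j ∈ ({0, 1, 2} : Finset (Fin 6))ᶜ,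
      i ≠ j ∧ {i, j} ∈ gens := by decide
  have := gen_mem (K := K) _ (h i hi j hj).2
  rwa [Finset.prod_pair (h i hi j hj).1] at this

theorem colon_edge (a b : Fin 6) (hab : a ≠ b) (h1 : ∀ s ∈ gens, ¬ s ⊆ {a, b})
    (h2 : ∀ j ∈ ({a, b} : Finset (Fin 6))ᶜ, ∃ s ∈ gens, s ⊆ insert j {a, b})
    (g : MvPolynomial (Fin 6) K) : g * (X a * X b) ∈ I K ↔ pr {a, b} g = 0 := by
  constructor
  · intro h
    have := pr_I _ h1 _ h
    rw [map_mul] at this
    exact (mul_eq_zero.mp this).resolve_right (by simp [pr])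
  · intro h
    have h3 := sub_pr {a, b} g
    rw [h, sub_zero] at h3
    refine (show V K {a, b}ᶜ ≤ (I K).colon {X a * X b} from ?_) h3 |> Submodule.mem_colon_singleton.mp
    rw [V, Ideal.span_le]
    rintro _ ⟨j, hj, rfl⟩
    obtain ⟨s, hs, hsub⟩ := h2 j hj
    rw [SetLike.mem_coe, Submodule.mem_colon_singleton, smul_eq_mul, ← Finset.prod_pair hab,
      ← Finset.prod_insert (Finset.mem_compl.mp hj), ← Finset.prod_sdiff hsub]
    exact Ideal.mul_mem_left _ _ (gen_mem s hs)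

theorem depth (a b : MvPolynomial (Fin 6) K) (ha : a ∈ V K Finset.univ) (hb : b ∈ V K Finset.univ)
    (h1 : ∀ f, a * f ∈ I K → f ∈ I K)
    (h2 : ∀ f, (∃ c, b * f - a * c ∈ I K) → ∃ c, f - a * c ∈ I K) : False := by
  have a1 := pr_map {0, 1, 2} _ a ha
  have b1 := pr_map {0, 1, 2} _ b hb
  rw [Finset.univ_inter] at a1 b1
  have a2 := sub_pr {0, 1, 2} a
  have b2 := sub_pr {0, 1, 2} b
  obtain ⟨c, hc⟩ := h2 (pr {0, 1, 2} a) ⟨pr {0, 1, 2} b, by
    have := sub_mem (cross _ _ a1 b2) (cross _ _ b1 a2)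
    convert this using 1
    ring⟩
  have ne : ∀ i j : Fin 6, i ≠ j → (∀ s ∈ gens, ¬ s ⊆ {i, j}) →
      (∀ k ∈ ({i, j} : Finset (Fin 6))ᶜ, ∃ s ∈ gens, s ⊆ insert k {i, j}) → pr {i, j} a ≠ 0 := by
    intro i j hij g1 g2 h
    have := pr_I _ g1 _ (h1 _ ((colon_edge i j hij g1 g2 a).mpr h))
    simp [pr] at this
  have e1 := pr_I {0, 1} (by decide) _ hc
  have e2 := pr_I {3, 4} (by decide) _ hc
  have f1 := pr_zero {0, 1} _ (by decide) _ a2
  have f2 := pr_zero {3, 4} _ (by decide) _ a1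
  rw [map_sub, map_mul] at e1 e2
  rw [map_sub] at f1
  have g1 : pr {0, 1} a * (1 - pr {0, 1} c) = 0 := by linear_combination e1 + f1
  have g2 : pr {3, 4} a * pr {3, 4} c = 0 := by linear_combination f2 - e2
  have k1 := congrArg constantCoeff
    ((mul_eq_zero.mp g1).resolve_left (ne 0 1 (by decide) (by decide) (by decide)))
  have k2 := congrArg constantCoeff
    ((mul_eq_zero.mp g2).resolve_left (ne 3 4 (by decide) (by decide) (by decide)))
  rw [map_sub, map_one, const_pr, map_zero] at k1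
  rw [const_pr, map_zero] at k2
  rw [k2, sub_zero] at k1
  exact one_ne_zero k1

theorem low (f : MvPolynomial (Fin 6) K) (d : ℕ) (hd : d < 2) (hf : f.IsHomogeneous d)
    (hp : ((I K).colon {f}).IsPrime) : False := by
  have hI : ∀ s ∈ gens, ∃ i ∈ s, X i * f ∈ I K := by
    intro s hs
    have : ∏ i ∈ s, X i ∈ (I K).colon {f} :=
      Submodule.mem_colon_singleton.mpr (Ideal.mul_mem_right _ _ (gen_mem s hs))
    obtain ⟨i, hi, h⟩ := Ideal.IsPrime.prod_mem_iff.mp this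
    exact ⟨i, hi, Submodule.mem_colon_singleton.mp h⟩
  have hz : ∀ i F, i ∈ F → (∀ s ∈ gens, ¬ s ⊆ F) → X i * f ∈ I K → pr F f = 0 := by
    intro i F hi hF h
    have := pr_I F hF _ h
    rw [map_mul] at this
    exact (mul_eq_zero.mp this).resolve_left (by simp [pr, hi])
  have hall : ∀ k : Fin 6, ∃ F : Finset (Fin 6), k ∈ F ∧ pr F f = 0 := by
    obtain ⟨i, hi, h1⟩ := hI {0, 1, 2} (by decide)
    obtain ⟨j, hj, h2⟩ := hI {3, 4, 5} (by decide)
    have h : ∀ i ∈ ({0, 1, 2} : Finset (Fin 6)), ∀ j ∈ ({3, 4, 5} : Finset (Fin 6)), ∀ k : Fin 6,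
      (∀ s ∈ gens, ¬ s ⊆ {i, k}) ∨ (∀ s ∈ gens, ¬ s ⊆ {j, k}) := by decide
    intro k
    rcases h i hi j hj k with h3 | h3
    · exact ⟨{i, k}, by simp, hz i _ (by simp) h3 h1⟩
    · exact ⟨{j, k}, by simp, hz j _ (by simp) h3 h2⟩
  have h0 : f = 0 := by
    interval_cases d
    · obtain ⟨F, -, h⟩ := hall 0
      rw [← totalDegree_zero_iff_isHomogeneous, totalDegree_eq_zero_iff_eq_C] at hf
      rw [hf] at h ⊢
      simpa [pr] using h
    · rw [← mem_homogeneousSubmodule, homogeneousSubmodule_one_eq_span_X,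
        Submodule.mem_span_range_iff_exists_fun] at hf
      obtain ⟨c, rfl⟩ := hf
      refine Finset.sum_eq_zero fun k _ => ?_
      obtain ⟨F, hk, h⟩ := hall k
      have := congrArg (eval (Pi.single k 1)) h
      rw [map_sum, map_sum, Finset.sum_eq_single k] at this
      · simp only [pr, map_smul, aeval_X, if_pos hk, smul_eval, eval_X, Pi.single_eq_same,
          mul_one, map_zero] at this
        rw [this, zero_smul]
      · intro l _ hl
        by_cases h : l ∈ F <;> simp [pr, h, hl]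
      · simp
  apply hp.ne_top
  rw [h0, eq_top_iff]
  intro r _
  simp [Submodule.mem_colon_singleton]

end

theorem result (K : Type) [Field K] : ∃ (n : ℕ) (A : Set (Finset (Fin n)))
    (J : Ideal (MvPolynomial (Fin n) K)),
    J = Ideal.span ((fun s : Finset (Fin n) => ∏ i ∈ s, X i) '' A) ∧ J ≠ ⊤ ∧
    IsLeast {d : ℕ | ∃ f : MvPolynomial (Fin n) K, f.IsHomogeneous d ∧
      ∃ p ∈ Submodule.associatedPrimes J, J.colon {f} = p} 2 ∧
    ∀ rs : List (MvPolynomial (Fin n) K), (∀ r ∈ rs, r ∈ Ideal.span (Set.range X)) →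
      RingTheory.Sequence.IsRegular (MvPolynomial (Fin n) K ⧸ J) rs → rs.length ≤ 1 := by
  refine ⟨6, gens, I K, rfl, fun h => ?_, ⟨?_, ?_⟩, ?_⟩
  · have := pr_I (K := K) ∅ (by decide) 1 (h ▸ Submodule.mem_top)
    simp at this
  · have hc : (I K).colon {X 0 * X 1} = RingHom.ker (pr (K := K) {0, 1}) := by
      ext g
      rw [Submodule.mem_colon_singleton, RingHom.mem_ker]
      exact colon_edge 0 1 (by decide) (by decide) (by decide) g
    have hp : ((I K).colon {X 0 * X 1}).IsPrime := hc ▸ RingHom.ker_isPrime _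
    exact ⟨X 0 * X 1, (isHomogeneous_X _ _).mul (isHomogeneous_X _ _), _,
      ⟨hp, _, hp.radical.symm⟩, rfl⟩
  · rintro d ⟨f, hf, p, hp, rfl⟩
    by_contra hd
    exact low f d (by omega) hf hp.1
  · intro rs hrs h
    by_contra hl
    obtain ⟨a, b, t, rfl⟩ : ∃ a b t, rs = a :: b :: t := by
      match rs, hl with
      | [], hl => simp at hl
      | [_], hl => simp at hl
      | a :: b :: t, _ => exact ⟨a, b, t, rfl⟩
    rw [RingTheory.Sequence.isRegular_cons_iff, RingTheory.Sequence.isRegular_cons_iff] at h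
    obtain ⟨h1, h2, -⟩ := h
    have hV : V K Finset.univ = Ideal.span (Set.range X) := by simp [V]
    have hm : ∀ f, Submodule.Quotient.mk (Ideal.Quotient.mk (I K) f) =
        (0 : QuotSMulTop a (MvPolynomial (Fin 6) K ⧸ I K)) ↔ ∃ c, f - a * c ∈ I K := by
      intro f
      rw [Submodule.Quotient.mk_eq_zero, Submodule.mem_smul_pointwise_iff_exists]
      constructor
      · rintro ⟨c, -, hc⟩
        obtain ⟨c, rfl⟩ := Ideal.Quotient.mk_surjective c
        exact ⟨c, Ideal.Quotient.eq.mp hc.symm⟩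
      · rintro ⟨c, hc⟩
        exact ⟨Ideal.Quotient.mk _ c, trivial, (Ideal.Quotient.eq.mpr hc).symm⟩
    refine depth a b (hV ▸ hrs a (by simp)) (hV ▸ hrs b (by simp)) (fun f hf => ?_) fun f hf => ?_
    · rw [← Ideal.Quotient.eq_zero_iff_mem] at hf ⊢
      exact h1.right_eq_zero_of_smul hf
    · rw [← hm] at hf ⊢
      exact h2.right_eq_zero_of_smul hf

end Pool.Agent.Results.MP_d06a13_ag.VExceedsDepth
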